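import Mathlib

/-!
The library shows that the category of cosheaves of abelian groups on a locally connected `T1`
space is not abelian if some sequence of points different from `x` converges to `x`.  Here: for
every locally connected `T1` space this category is abelian if and only if the space is discrete.
-/

set_option autoImplicit false

namespace Pool.Agent.Results.MP_c909fd_al.AbelianIffDiscrete

open CategoryTheory TopologicalSpace Opposite Filter Topology

universe u

/-- Classical cosheaves of abelian groups on `X`: covariant functors from the open sets to `Ab`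
which are sheaves with values in `Abᵒᵖ` for the topology of all open coverings; a full subcategory
of the precosheaves. -/
abbrev CS (X : Type u) [TopologicalSpace X] : Type (u + 1) :=
  ObjectProperty.FullSubcategory fun A : Opens X ⥤ AddCommGrpCat.{u} =>
    Presheaf.IsSheaf (Opens.grothendieckTopology X) A.op

variable {X : Type u} [TopologicalSpace X]

theorem isSheaf_of (A : Opens X ⥤ AddCommGrpCat.{u})
    (h : ∀ (E : AddCommGrpCat.{u}) (U : Opens X) (R : Opens X → Prop) (hR : ∀ V, R V → V ≤ U)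
      (down : ∀ V W, R V → W ≤ V → R W) (_ : ∀ q ∈ U, ∃ V, R V ∧ q ∈ V)
      (y : ∀ V, R V → (A.obj V ⟶ E))
      (_ : ∀ V W (hV : R V) (h : W ≤ V), y W (down V W hV h) = A.map (homOfLE h) ≫ y V hV),
      ∃! t : A.obj U ⟶ E, ∀ V hV, A.map (homOfLE (hR V hV)) ≫ t = y V hV) :
    Presheaf.IsSheaf (Opens.grothendieckTopology X) A.op := by
  intro E U S hS x hx
  rw [Presieve.compatible_iff_sieveCompatible] at hx
  obtain ⟨t, h1, h2⟩ := h E.unop U (fun V => ∃ h : V ≤ U, S (homOfLE h)) (fun V h => h.1)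
    (fun V W hV h => ⟨h.trans hV.1, S.downward_closed hV.2 (homOfLE h)⟩)
    (fun q hq => by
      obtain ⟨V, f, hf, hV⟩ := hS q hq
      exact ⟨V, ⟨f.le, hf⟩, hV⟩)
    (fun V hV => Quiver.Hom.unop (x (homOfLE hV.1) hV.2))
    (fun V W hV h => congrArg Quiver.Hom.unop (hx (homOfLE hV.1) (homOfLE h) hV.2))
  refine ⟨t.op, fun V f hf => Quiver.Hom.unop_inj (h1 V ⟨f.le, hf⟩), fun t' ht' => ?_⟩
  exact Quiver.Hom.unop_inj (h2 (Quiver.Hom.unop t') fun V hV =>
    congrArg Quiver.Hom.unop (ht' (homOfLE hV.1) hV.2))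

theorem sep {A : Opens X ⥤ AddCommGrpCat.{u}}
    (hA : Presheaf.IsSheaf (Opens.grothendieckTopology X) A.op) {E : AddCommGrpCat.{u}}
    {U V W : Opens X} (hV : V ≤ U) (hW : W ≤ U) (hc : ∀ q ∈ U, q ∈ V ∨ q ∈ W)
    (t t' : A.obj U ⟶ E) (h1 : A.map (homOfLE hV) ≫ t = A.map (homOfLE hV) ≫ t')
    (h2 : A.map (homOfLE hW) ≫ t = A.map (homOfLE hW) ≫ t') : t = t' := by
  let S : Sieve U := ⟨fun Y _ => Y ≤ V ∨ Y ≤ W, fun h g => h.imp g.le.trans g.le.trans⟩
  have hS : S ∈ Opens.grothendieckTopology X U := fun q hq =>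
    (hc q hq).elim (fun h => ⟨V, homOfLE hV, Or.inl le_rfl, h⟩)
      fun h => ⟨W, homOfLE hW, Or.inr le_rfl, h⟩
  refine Quiver.Hom.op_inj ((hA (op E) S hS).isSeparatedFor.ext fun Y f hf => ?_)
  apply Quiver.Hom.unop_inj
  change A.map f ≫ t = A.map f ≫ t'
  rcases hf with h | h
  · rw [show f = homOfLE h ≫ homOfLE hV from rfl, A.map_comp, Category.assoc, h1, Category.assoc]
  · rw [show f = homOfLE h ≫ homOfLE hW from rfl, A.map_comp, Category.assoc, h2, Category.assoc]

/-! ### The skyscraper cosheaf with stalk `M` -/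

section sky

variable (x : X) (M : Type u) [AddCommGroup M]

/-- stalk group of the skyscraper -/
def SS (U : Opens X) : AddSubgroup M where
  carrier := {z | x ∈ U ∨ z = 0}
  zero_mem' := Or.inr rfl
  add_mem' := by
    rintro a b (h | rfl) hb
    · exact Or.inl h
    · rwa [zero_add]
  neg_mem' := fun h => h.imp id neg_eq_zero.2

theorem SS_mono {U V : Opens X} (h : U ≤ V) : SS x M U ≤ SS x M V := fun _ hz =>
  hz.imp (fun a => h a) id

def sky : Opens X ⥤ AddCommGrpCat.{u} where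
  obj U := AddCommGrpCat.of (SS x M U)
  map f := AddCommGrpCat.ofHom (AddSubgroup.inclusion (SS_mono x M f.le))

theorem sky_sheaf : Presheaf.IsSheaf (Opens.grothendieckTopology X) (sky x M).op := by
  refine isSheaf_of _ fun E U R hR down cov y hy => ?_
  by_cases hx : x ∈ U
  · obtain ⟨V₀, h0, hx0⟩ := cov x hx
    refine ⟨AddCommGrpCat.ofHom (AddSubgroup.inclusion fun z _ => Or.inl hx0) ≫ y V₀ h0, ?_, ?_⟩
    · intro V hV
      ext ⟨z, hz⟩
      rcases hz with hz | rfl
      · have a := ConcreteCategory.congr_hom (hy V (V ⊓ V₀) hV inf_le_left) ⟨z, Or.inl ⟨hz, hx0⟩⟩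
        have b := ConcreteCategory.congr_hom (hy V₀ (V ⊓ V₀) h0 inf_le_right) ⟨z, Or.inl ⟨hz, hx0⟩⟩
        exact b.symm.trans a
      · exact (map_zero _).trans (map_zero _).symm
    · intro t ht
      rw [← ht V₀ h0]; rfl
  · refine ⟨0, fun V hV => ?_, fun t _ => ?_⟩
    · ext ⟨z, hz⟩
      rcases hz with hz | rfl
      · exact (hx (hR V hV hz)).elim
      · exact (map_zero _).trans (map_zero _).symm
    · ext ⟨z, hz⟩
      rcases hz with hz | rfl
      · exact (hx hz).elim
      · exact (map_zero _).trans (map_zero _).symm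

end sky

/-! ### The cosheaf `B` -/

section B

variable (x : X)

/-- the free abelian group on the points different from `x` -/
abbrev G : Type u := {y : X // y ≠ x} →₀ ℤ

/-- the basis vector of the point `y` -/
noncomputable abbrev e (y : {y : X // y ≠ x}) : G x := Finsupp.single y 1

/-- finitely supported functions from `U` to `G x` -/
def FA (U : Opens X) : Type u := U →₀ G x

noncomputable instance (U : Opens X) : AddCommGroup (FA x U) :=
  inferInstanceAs (AddCommGroup (U →₀ G x))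

noncomputable def sg {U : Opens X} (a : U) : G x →+ FA x U := Finsupp.singleAddHom a

noncomputable def lft {U : Opens X} {E : Type u} [AddCommGroup E] (φ : U → (G x →+ E)) :
    FA x U →+ E := Finsupp.liftAddHom φ

theorem lft_sg {U : Opens X} {E : Type u} [AddCommGroup E] (φ : U → (G x →+ E)) (a : U)
    (g : G x) : lft x φ (sg x a g) = φ a g := Finsupp.liftAddHom_apply_single φ a g

theorem faext {U : Opens X} {E : Type u} [AddCommGroup E] {f g : FA x U →+ E}
    (h : ∀ a z, f (sg x a z) = g (sg x a z)) : f = g := Finsupp.addHom_ext h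

noncomputable def Rel (U : Opens X) : AddSubgroup (FA x U) := AddSubgroup.closure
  {r | (∃ (a b : U) (g : G x) (s : Set X), IsPreconnected s ∧ s ⊆ U ∧ a.1 ∈ s ∧ b.1 ∈ s ∧
      r = sg x a g - sg x b g) ∨
    ∃ (y : {y : X // y ≠ x}) (h : y.1 ∈ U), r = sg x ⟨y.1, h⟩ (e x y)}

abbrev BB (U : Opens X) : Type u := FA x U ⧸ Rel x U

noncomputable def gen {U : Opens X} (a : U) : G x →+ BB x U :=
  (QuotientAddGroup.mk' (Rel x U)).comp (sg x a)

theorem gen_eq {U : Opens X} (a b : U) {s : Set X} (h : IsPreconnected s) (h1 : s ⊆ U)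
    (ha : a.1 ∈ s) (hb : b.1 ∈ s) : gen x a = gen x b := by
  refine AddMonoidHom.ext fun g => ?_
  rw [← sub_eq_zero]
  change QuotientAddGroup.mk' (Rel x U) (sg x a g) - QuotientAddGroup.mk' (Rel x U) (sg x b g) = 0
  rw [← map_sub]
  exact (QuotientAddGroup.eq_zero_iff _).2
    (AddSubgroup.subset_closure (Or.inl ⟨a, b, _, s, h, h1, ha, hb, rfl⟩))

theorem gen_tors {U : Opens X} (y : {y : X // y ≠ x}) (h : y.1 ∈ U) :
    gen x (U := U) ⟨y.1, h⟩ (e x y) = 0 :=
  (QuotientAddGroup.eq_zero_iff _).2 (AddSubgroup.subset_closure (Or.inr ⟨y, h, rfl⟩))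

noncomputable def blift {U : Opens X} {E : Type u} [AddCommGroup E] (φ : U → (G x →+ E))
    (h1 : ∀ (a b : U) (s : Set X), IsPreconnected s → s ⊆ U → a.1 ∈ s → b.1 ∈ s → φ a = φ b)
    (h2 : ∀ (y : {y : X // y ≠ x}) (h : y.1 ∈ U), φ ⟨y.1, h⟩ (e x y) = 0) : BB x U →+ E :=
  QuotientAddGroup.lift _ (lft x φ) ((AddSubgroup.closure_le _).2 (by
    rintro _ (⟨a, b, g, s, a1, a2, a3, a4, rfl⟩ | ⟨y, h, rfl⟩)
    · change lft x φ _ = 0
      rw [map_sub, lft_sg, lft_sg, h1 a b s a1 a2 a3 a4, sub_self]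
    · change lft x φ _ = 0
      rw [lft_sg]
      exact h2 y h))

theorem blift_gen' {U : Opens X} {E : Type u} [AddCommGroup E] (φ : U → (G x →+ E)) (h1) (h2)
    (a : U) (g : G x) : blift x φ h1 h2 (gen x a g) = φ a g := lft_sg x φ a g

theorem blift_gen {U : Opens X} {E : Type u} [AddCommGroup E] (φ : U → (G x →+ E)) (h1) (h2)
    (a : U) : (blift x φ h1 h2).comp (gen x a) = φ a :=
  AddMonoidHom.ext fun g => blift_gen' x φ h1 h2 a g

theorem bext {U : Opens X} {E : Type u} [AddCommGroup E] {f g : BB x U →+ E}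
    (h : ∀ a, f.comp (gen x a) = g.comp (gen x a)) : f = g := by
  apply QuotientAddGroup.addMonoidHom_ext
  apply faext
  intro a z
  exact DFunLike.congr_fun (h a) z

noncomputable def bmap {U V : Opens X} (h : U ≤ V) : BB x U →+ BB x V :=
  blift x (fun a => gen x ⟨a.1, h a.2⟩)
    (fun _ _ _ a1 a2 a3 a4 => gen_eq x _ _ a1 (a2.trans h) a3 a4) fun y _ => gen_tors x y _

theorem bmap_gen {U V : Opens X} (h : U ≤ V) (a : U) :
    (bmap x h).comp (gen x a) = gen x ⟨a.1, h a.2⟩ := blift_gen _ _ _ _ _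

theorem bmap_gen' {U V : Opens X} (h : U ≤ V) (a : U) (g : G x) :
    bmap x h (gen x a g) = gen x ⟨a.1, h a.2⟩ g := blift_gen' _ _ _ _ _ _

noncomputable def BF : Opens X ⥤ AddCommGrpCat.{u} where
  obj U := AddCommGrpCat.of (BB x U)
  map f := AddCommGrpCat.ofHom (bmap x f.le)
  map_id U := AddCommGrpCat.hom_ext (bext x fun a =>
    (bmap_gen x (le_refl U) a).trans rfl)
  map_comp {U V W} f g := AddCommGrpCat.hom_ext (bext x fun a => by
    refine (bmap_gen x (f.le.trans g.le) a).trans ?_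
    change _ = ((bmap x g.le).comp (bmap x f.le)).comp (gen x a)
    rw [AddMonoidHom.comp_assoc, bmap_gen, bmap_gen])

theorem BF_sheaf [LocallyConnectedSpace X] :
    Presheaf.IsSheaf (Opens.grothendieckTopology X) (BF x).op := by
  refine isSheaf_of _ fun E U R hR down cov y hy => ?_
  choose V hV hq using cov
  let y' : ∀ W, R W → BB x W →+ E := fun W hW => (y W hW).hom
  have hy' : ∀ V W (hV : R V) (h : W ≤ V) (a : W),
      (y' W (down V W hV h)).comp (gen x a) = (y' V hV).comp (gen x ⟨a.1, h a.2⟩) := by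
    intro V W hV h a
    have := congrArg (fun f => (AddCommGrpCat.Hom.hom f).comp (gen x a)) (hy V W hV h)
    refine this.trans ?_
    change ((y' V hV).comp (bmap x h)).comp (gen x a) = _
    rw [AddMonoidHom.comp_assoc, bmap_gen]
  let φ : U → (G x →+ E) := fun a =>
    (y' (V a.1 a.2) (hV a.1 a.2)).comp (gen x ⟨a.1, hq a.1 a.2⟩)
  have hφ : ∀ W (hW : R W) (a : W), φ ⟨a.1, hR W hW a.2⟩ = (y' W hW).comp (gen x a) := by
    intro W hW a
    have ha := hR W hW a.2
    have hm : a.1 ∈ W ⊓ V a.1 ha := ⟨a.2, hq a.1 ha⟩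
    exact (hy' (V a.1 ha) _ (hV _ _) inf_le_right ⟨a.1, hm⟩).symm.trans
      (hy' W _ hW inf_le_left ⟨a.1, hm⟩)
  have hl : IsLocallyConstant φ := by
    rw [IsLocallyConstant.iff_eventually_eq]
    intro a
    have h1 := connectedComponentIn_mem_nhds ((V a.1 a.2).2.mem_nhds (hq a.1 a.2))
    filter_upwards [continuous_subtype_val.continuousAt h1] with b hb
    have hb' := connectedComponentIn_subset _ _ hb
    rw [hφ _ (hV a.1 a.2) ⟨b.1, hb'⟩]
    exact congrArg _ (gen_eq x _ _ isPreconnected_connectedComponentIn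
      (connectedComponentIn_subset _ _) hb (mem_connectedComponentIn (hq a.1 a.2)))
  have k1 : ∀ (a b : U) (s : Set X), IsPreconnected s → s ⊆ U → a.1 ∈ s → b.1 ∈ s →
      φ a = φ b := by
    intro a b s a1 a2 a3 a4
    refine hl.apply_eq_of_isPreconnected (s := Subtype.val ⁻¹' s) ?_ a3 a4
    rw [← IsInducing.subtypeVal.isPreconnected_image]
    convert a1
    exact Set.image_preimage_eq_of_subset fun q hq => ⟨⟨q, a2 hq⟩, rfl⟩
  have k2 : ∀ (z : {y : X // y ≠ x}) (h : z.1 ∈ U), φ ⟨z.1, h⟩ (e x z) = 0 := by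
    intro z h
    change y' _ _ (gen x _ _) = 0
    rw [gen_tors, map_zero]
  refine ⟨AddCommGrpCat.ofHom (blift x φ k1 k2), fun W hW => ?_, fun t ht => ?_⟩
  · refine AddCommGrpCat.hom_ext (bext x fun a => Eq.trans ?_ (hφ W hW a))
    change ((blift x φ k1 k2).comp (bmap x (hR W hW))).comp (gen x a) = _
    rw [AddMonoidHom.comp_assoc, bmap_gen, blift_gen]
  · refine AddCommGrpCat.hom_ext (bext x fun a => Eq.trans ?_ (blift_gen x φ k1 k2 a).symm)
    have h3 := congrArg (fun f => (AddCommGrpCat.Hom.hom f).comp (gen x ⟨a.1, hq a.1 a.2⟩))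
      (ht _ (hV a.1 a.2))
    refine Eq.trans ?_ h3
    exact congrArg t.hom.comp (bmap_gen x (hR _ (hV a.1 a.2)) ⟨a.1, hq a.1 a.2⟩).symm

open Classical in
/-- The element `g` at the point `x`. -/
noncomputable def pt (U : Opens X) : G x →+ BB x U := if h : x ∈ U then gen x ⟨x, h⟩ else 0

theorem pt_map {U V : Opens X} (h : U ≤ V) (hx : x ∈ U) (g : G x) :
    pt x V g = bmap x h (pt x U g) := by
  rw [pt, dif_pos (h hx), pt, dif_pos hx, bmap_gen']

variable {M : Type u} [AddCommGroup M] (φ : M →+ G x)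

noncomputable def FF : sky x M ⟶ BF x where
  app U := AddCommGrpCat.ofHom (((pt x U).comp φ).comp (SS x M U).subtype)
  naturality U V f := by
    ext ⟨z, hz⟩
    change pt x V (φ z) = bmap x f.le (pt x U (φ z))
    rcases hz with hz | rfl
    · exact pt_map x f.le hz _
    · simp

variable [T1Space X]

theorem exists_psi (y : {y : X // y ≠ x}) : ∃ V : Opens X, x ∈ V ∧ ∀ W ≤ V, x ∈ W →
    ∃ ψ : BB x W →+ ULift.{u} ℤ, ∀ g, ψ (pt x W g) = ⟨g y⟩ := by
  refine ⟨⟨{y.1}ᶜ, isOpen_compl_singleton⟩, fun h => y.2 h.symm,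
    fun W hW hx => ⟨blift x (fun _ => (AddEquiv.ulift.symm.toAddMonoidHom).comp
      (Finsupp.applyAddHom y)) (fun _ _ _ _ _ _ _ => rfl) fun z h => ?_, fun g => ?_⟩⟩
  · have : z ≠ y := by
      rintro rfl
      exact hW h rfl
    change (ULift.up (Finsupp.single z (1 : ℤ) y) : ULift ℤ) = 0
    rw [Finsupp.single_eq_of_ne' this]
    rfl
  · rw [pt, dif_pos hx, blift_gen']
    rfl

theorem monoFF (hφ : Function.Injective φ) {C : Opens X ⥤ AddCommGrpCat.{u}}
    (hC : Presheaf.IsSheaf (Opens.grothendieckTopology X) C.op) (g h : C ⟶ sky x M)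
    (E : g ≫ FF x φ = h ≫ FF x φ) : g = h := by
  ext U c
  apply Subtype.ext
  by_cases hx : x ∈ U
  swap
  · exact ((g.app U c).2.resolve_left hx).trans ((h.app U c).2.resolve_left hx).symm
  refine hφ (Finsupp.ext fun y => ?_)
  obtain ⟨V, hV, hψ⟩ := exists_psi x y
  obtain ⟨ψ, hψ⟩ := hψ (U ⊓ V) inf_le_right ⟨hx, hV⟩
  let ρ : M →+ ULift.{u} ℤ :=
    (AddEquiv.ulift.symm.toAddMonoidHom).comp ((Finsupp.applyAddHom y).comp φ)
  let r : (sky x M).obj U ⟶ AddCommGrpCat.of (ULift.{u} ℤ) := AddCommGrpCat.ofHom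
    (ρ.comp (SS x M U).subtype)
  have := sep hC (V := U ⊓ V) (W := U ⊓ ⟨{x}ᶜ, isOpen_compl_singleton⟩) inf_le_left inf_le_left
    (fun q hq => by
      by_cases h : q = x
      · exact Or.inl ⟨hq, h ▸ hV⟩
      · exact Or.inr ⟨hq, h⟩) (g.app U ≫ r) (h.app U ≫ r) (by
      rw [← Category.assoc, ← Category.assoc, g.naturality, h.naturality]
      ext1
      refine AddMonoidHom.ext fun d => ?_
      have := congrArg ψ (ConcreteCategory.congr_hom (NatTrans.congr_app E (U ⊓ V)) d)
      change ψ (pt x _ (φ (g.app _ d).1)) = ψ (pt x _ (φ (h.app _ d).1)) at this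
      rw [hψ, hψ] at this
      exact this) (by
      rw [← Category.assoc, ← Category.assoc, g.naturality, h.naturality]
      ext1
      refine AddMonoidHom.ext fun d => ?_
      change ρ (g.app _ d).1 = ρ (h.app _ d).1
      rw [(g.app _ d).2.resolve_left fun h => h.2 rfl, (h.app _ d).2.resolve_left fun h => h.2 rfl])
  have := ConcreteCategory.congr_hom this c
  change (ULift.up _ : ULift.{u} ℤ) = ULift.up _ at this
  exact ULift.up_injective this

theorem no_lift (hφ : ¬ Function.Surjective φ) (k : sky x (G x) ⟶ sky x M) :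
    k ≫ FF x φ ≠ FF x (AddMonoidHom.id (G x)) := by
  intro E
  refine hφ fun g => ⟨(k.app ⊤ ⟨g, Or.inl trivial⟩).1, Finsupp.ext fun y => ?_⟩
  obtain ⟨V, hV, hψ⟩ := exists_psi x y
  obtain ⟨ψ, hψ⟩ := hψ V le_rfl hV
  have h1 := congrArg ψ (ConcreteCategory.congr_hom (NatTrans.congr_app E V) ⟨g, Or.inl hV⟩)
  change ψ (pt x _ (φ (k.app V ⟨g, Or.inl hV⟩).1)) = ψ (pt x _ g) at h1
  rw [hψ, hψ] at h1
  have h2 : (k.app ⊤ ⟨g, Or.inl trivial⟩).1 = (k.app V ⟨g, Or.inl hV⟩).1 := congrArg Subtype.val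
    (ConcreteCategory.congr_hom (k.naturality (homOfLE (le_top : V ≤ ⊤))) ⟨g, Or.inl hV⟩)
  rw [h2]
  exact ULift.up_injective h1

omit [T1Space X] in
theorem eqFF [LocallyConnectedSpace X]
    (hd : ∀ (g : G x) (y : {y : X // y ≠ x}), ∃ (m : M) (n : ℤ), g = φ m + n • e x y)
    (hx : (𝓝[≠] x).NeBot)
    {C : Opens X ⥤ AddCommGrpCat.{u}} (g h : BF x ⟶ C)
    (E : FF x φ ≫ g = FF x φ ≫ h) :
    FF x (AddMonoidHom.id (G x)) ≫ g = FF x (AddMonoidHom.id (G x)) ≫ h := by
  ext U ⟨z, hz⟩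
  let g' : BB x U →+ C.obj U := (g.app U).hom
  let h' : BB x U →+ C.obj U := (h.app U).hom
  change g' (pt x U z) = h' (pt x U z)
  rcases hz with hz | rfl
  swap
  · simp
  obtain ⟨y, hy, hyx⟩ := hx.nonempty_of_mem (inter_mem (mem_nhdsWithin_of_mem_nhds
    (connectedComponentIn_mem_nhds (U.2.mem_nhds hz))) self_mem_nhdsWithin)
  obtain ⟨m, n, rfl⟩ := hd z ⟨y, hyx⟩
  have e1 : g' (pt x U (φ m)) = h' (pt x U (φ m)) :=
    ConcreteCategory.congr_hom (NatTrans.congr_app E U) ⟨m, Or.inl hz⟩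
  have e2 : pt x U (e x ⟨y, hyx⟩) = 0 := by
    rw [pt, dif_pos hz, gen_eq x ⟨x, hz⟩ ⟨y, connectedComponentIn_subset _ _ hy⟩
      isPreconnected_connectedComponentIn (connectedComponentIn_subset _ _)
      (mem_connectedComponentIn hz) hy]
    exact gen_tors x ⟨y, hyx⟩ _
  have e3 : pt x U (φ m + n • e x ⟨y, hyx⟩) = pt x U (φ m) := by
    rw [map_add, map_zsmul, e2, smul_zero]
    exact add_zero _
  rw [e3, e1]

end B

/-- Not abelian at a non-isolated point. -/
theorem not_abelian [T1Space X] [LocallyConnectedSpace X] (x : X) (hx : (𝓝[≠] x).NeBot) :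
    IsEmpty (Abelian (CS X)) := by
  refine ⟨fun inst => ?_⟩
  let lam : G x →+ ℤ := Finsupp.liftAddHom fun _ => AddMonoidHom.id ℤ
  let φ : lam.ker →+ G x := lam.ker.subtype
  obtain ⟨y0, -, hy0⟩ := hx.nonempty_of_mem (inter_mem univ_mem self_mem_nhdsWithin)
  have hlam : ∀ y, lam (e x y) = 1 := fun y => by simp [lam]
  have hns : ¬ Function.Surjective φ := fun hs => by
    obtain ⟨m, hm⟩ := hs (e x ⟨y0, hy0⟩)
    have h1 : lam (φ m) = 0 := m.2
    rw [hm, hlam] at h1
    exact one_ne_zero h1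
  let A : CS X := ⟨sky x lam.ker, sky_sheaf x _⟩
  let A' : CS X := ⟨sky x (G x), sky_sheaf x _⟩
  let B : CS X := ⟨BF x, BF_sheaf x⟩
  let f : A ⟶ B := ObjectProperty.homMk (FF x φ)
  let f' : A' ⟶ B := ObjectProperty.homMk (FF x (AddMonoidHom.id _))
  have : Mono f := ⟨fun {C} g h E => ObjectProperty.hom_ext _
    (monoFF x φ (AddSubgroup.subtype_injective _) C.property g.hom h.hom
      (congrArg InducedCategory.Hom.hom E))⟩
  have : IsRegularMonoCategory (CS X) :=
    @regularMonoCategoryOfNormalMonoCategory _ _ (_) inst.toIsNormalMonoCategory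
  let r := regularMonoOfMono f
  have w : f' ≫ r.left = f' ≫ r.right := ObjectProperty.hom_ext _
    (eqFF x φ (fun g y => ⟨⟨g - lam g • e x y, by
      rw [AddMonoidHom.mem_ker, map_sub, map_zsmul, hlam]; simp⟩, lam g, by simp [φ]⟩) hx
      r.left.hom r.right.hom (congrArg InducedCategory.Hom.hom r.w))
  obtain ⟨k, hk⟩ := Limits.Fork.IsLimit.lift' r.isLimit f' w
  exact no_lift x φ hns k.hom (congrArg InducedCategory.Hom.hom hk)

/-! ### Discrete spaces -/

section discrete

variable [DiscreteTopology X]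

/-- The open set `{x}`. -/
def si (x : X) : Opens X := ⟨{x}, isOpen_discrete _⟩

theorem mem_si (x : X) : x ∈ si x := Set.mem_singleton x

theorem si_le {x : X} {U : Opens X} (h : x ∈ U) : si x ≤ U := by
  rintro _ rfl
  exact h

/-- Maps out of `A(U)` are families of maps out of the `A({x})`, `x ∈ U`. -/
def K (A : Opens X ⥤ AddCommGrpCat.{u}) : Prop :=
  ∀ (U : Opens X) (E : AddCommGrpCat.{u}) (y : ∀ x, x ∈ U → (A.obj (si x) ⟶ E)),
    ∃! t : A.obj U ⟶ E, ∀ x (h : x ∈ U), A.map (homOfLE (si_le h)) ≫ t = y x h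

theorem K_of_sheaf {A : Opens X ⥤ AddCommGrpCat.{u}}
    (hA : Presheaf.IsSheaf (Opens.grothendieckTopology X) A.op) : K A := by
  intro U E y
  have h0 : ∀ (V : Opens X), (∀ q, q ∉ V) → ∀ (f g : A.obj V ⟶ E), f = g := by
    intro V hV f g
    exact Quiver.Hom.op_inj ((hA (op E) (⊥ : Sieve V)
      (fun q hq => (hV q hq).elim)).isSeparatedFor.ext fun Y f hf => hf.elim)
  have key : ∀ (V : Opens X) (x x' : X) (hx : x ∈ U) (hx' : x' ∈ U) (h : V ≤ si x)
      (h' : V ≤ si x'), A.map (homOfLE h) ≫ y x hx = A.map (homOfLE h') ≫ y x' hx' := by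
    intro V x x' hx hx' h h'
    by_cases hV : ∃ p, p ∈ V
    · obtain ⟨p, hp⟩ := hV
      obtain rfl : p = x := h hp
      obtain rfl : p = x' := h' hp
      rfl
    · exact h0 V (fun q hq => hV ⟨q, hq⟩) _ _
  let S : Sieve U := ⟨fun V _ => ∃ x, ∃ _ : x ∈ U, V ≤ si x,
    fun ⟨x, hx, h⟩ g => ⟨x, hx, g.le.trans h⟩⟩
  have hS : S ∈ Opens.grothendieckTopology X U := fun q hq =>
    ⟨si q, homOfLE (si_le hq), ⟨q, hq, le_rfl⟩, rfl⟩
  let fam : Presieve.FamilyOfElements (A.op ⋙ coyoneda.obj (op (op E))) S.arrows :=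
    fun V f hf => (A.map (homOfLE hf.choose_spec.choose_spec) ≫
      y hf.choose hf.choose_spec.choose).op
  obtain ⟨t, h1, h2⟩ := hA (op E) S hS fam (by
    rw [Presieve.compatible_iff_sieveCompatible]
    intro V W f g hf
    apply Quiver.Hom.unop_inj
    change _ = A.map g ≫ A.map _ ≫ y _ _
    rw [← Category.assoc, ← A.map_comp]
    exact key _ _ _ _ _ _ _)
  refine ⟨t.unop, fun x hx => ?_, fun t' ht' => ?_⟩
  · refine (congrArg Quiver.Hom.unop (h1 (homOfLE (si_le hx)) ⟨x, hx, le_rfl⟩)).trans ?_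
    change A.map _ ≫ y _ _ = _
    rw [key _ _ x _ hx _ le_rfl]
    exact (congrArg (· ≫ y x hx) (A.map_id (si x))).trans (Category.id_comp _)
  · refine Quiver.Hom.op_inj (h2 t'.op fun V f hf => ?_)
    apply Quiver.Hom.unop_inj
    change A.map f ≫ t' = A.map _ ≫ y _ _
    obtain ⟨x, hx, h⟩ := hf
    rw [key _ _ x _ hx _ h, ← ht' x hx, ← Category.assoc, ← A.map_comp]
    rfl

theorem sheaf_of_K {A : Opens X ⥤ AddCommGrpCat.{u}} (hK : K A) :
    Presheaf.IsSheaf (Opens.grothendieckTopology X) A.op := by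
  refine isSheaf_of _ fun E U R hR down cov y hy => ?_
  have hsi : ∀ x, x ∈ U → R (si x) := fun x hx => by
    obtain ⟨V, hV, hxV⟩ := cov x hx
    exact down V _ hV (si_le hxV)
  obtain ⟨t, h1, h2⟩ := hK U E (fun x hx => y (si x) (hsi x hx))
  refine ⟨t, fun V hV => ?_, fun t' ht' => h2 t' fun x hx => ht' (si x) (hsi x hx)⟩
  refine (hK V E (fun x hx => y (si x) (hsi x (hR V hV hx)))).unique (fun x hx => ?_)
    (fun x hx => ?_)
  · rw [← Category.assoc, ← A.map_comp]
    exact h1 x (hR V hV hx)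
  · exact (hy V (si x) hV (si_le hx)).symm

variable (X) in
/-- Restriction to the one-point sets. -/
def Fun : CS X ⥤ (Discrete X ⥤ AddCommGrpCat.{u}) :=
  ObjectProperty.ι _ ⋙ (Functor.whiskeringLeft _ _ _).obj (Discrete.functor si)

theorem faithful : (Fun X).Faithful where
  map_injective {A B f g} h := by
    refine ObjectProperty.hom_ext _ (NatTrans.ext (funext fun U => ?_))
    refine (K_of_sheaf A.property U (B.obj.obj U)
      (fun x hx => A.obj.map (homOfLE (si_le hx)) ≫ f.hom.app U)).unique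
      (fun x hx => rfl) (fun x hx => ?_)
    have h1 : g.hom.app (si x) = f.hom.app (si x) :=
      (congrArg (fun (α : (Fun X).obj A ⟶ (Fun X).obj B) => α.app ⟨x⟩) h).symm
    rw [g.hom.naturality, f.hom.naturality, h1]

theorem full : (Fun X).Full where
  map_surjective {A B} α := by
    let a : ∀ x : X, A.obj.obj (si x) ⟶ B.obj.obj (si x) := fun x => α.app ⟨x⟩
    choose t ht hu using fun U : Opens X => K_of_sheaf A.property U (B.obj.obj U)
      (fun x hx => a x ≫ B.obj.map (homOfLE (si_le hx)))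
    refine ⟨ObjectProperty.homMk ⟨t, fun U V f => ?_⟩, ?_⟩
    · refine (K_of_sheaf A.property U (B.obj.obj V)
        (fun x hx => a x ≫ B.obj.map (homOfLE (si_le (f.le hx))))).unique
        (fun x hx => ?_) (fun x hx => ?_)
      · rw [← Category.assoc, ← A.obj.map_comp]
        exact ht V x (f.le hx)
      · rw [← Category.assoc, ht U x hx, Category.assoc, ← B.obj.map_comp]
        rfl
    · refine NatTrans.ext (funext fun ⟨x⟩ => ?_)
      have := ht (si x) x rfl
      change t (si x) = a x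
      have e1 : A.obj.map (homOfLE (si_le (rfl : x ∈ si x))) = 𝟙 _ := A.obj.map_id _
      have e2 : B.obj.map (homOfLE (si_le (rfl : x ∈ si x))) = 𝟙 _ := B.obj.map_id _
      rw [e1, e2] at this
      exact (Category.id_comp _).symm.trans (this.trans (Category.comp_id _))

open Limits in
/-- The cosheaf with given stalks. -/
noncomputable def cos (D : Discrete X ⥤ AddCommGrpCat.{u}) : Opens X ⥤ AddCommGrpCat.{u} where
  obj U := ∐ fun x : U => D.obj ⟨x.1⟩
  map {U V} f := Sigma.desc fun x => Sigma.ι (fun x : V => D.obj ⟨x.1⟩) ⟨x.1, f.le x.2⟩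
  map_id U := by
    refine Sigma.hom_ext _ _ fun x => ?_
    rw [Sigma.ι_desc, Category.comp_id]
  map_comp f g := by
    refine Sigma.hom_ext _ _ fun x => ?_
    rw [Sigma.ι_desc, ← Category.assoc, Sigma.ι_desc, Sigma.ι_desc]

section io

open Limits

variable (D : Discrete X ⥤ AddCommGrpCat.{u}) {E : AddCommGrpCat.{u}}

noncomputable def io (U : Opens X) (x : X) (h : x ∈ U) : D.obj ⟨x⟩ ⟶ (cos D).obj U :=
  Sigma.ι (fun x : U => D.obj ⟨x.1⟩) ⟨x, h⟩

omit [DiscreteTopology X] in
theorem io_map {U V : Opens X} (f : U ⟶ V) (x : X) (h : x ∈ U) :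
    io D U x h ≫ (cos D).map f = io D V x (f.le h) := Sigma.ι_desc _ _

omit [DiscreteTopology X] in
theorem io_ext {U : Opens X} {f g : (cos D).obj U ⟶ E}
    (h : ∀ x hx, io D U x hx ≫ f = io D U x hx ≫ g) : f = g :=
  Sigma.hom_ext _ _ fun ⟨x, hx⟩ => h x hx

noncomputable def cdesc {U : Opens X} (y : ∀ x, x ∈ U → (D.obj ⟨x⟩ ⟶ E)) :
    (cos D).obj U ⟶ E := Sigma.desc fun x => y x.1 x.2

omit [DiscreteTopology X] in
theorem io_cdesc {U : Opens X} (y : ∀ x, x ∈ U → (D.obj ⟨x⟩ ⟶ E)) (x : X) (h : x ∈ U) :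
    io D U x h ≫ cdesc D y = y x h := Sigma.ι_desc _ _

theorem cos_K : K (cos D) := by
  intro U E y
  refine ⟨cdesc D fun x hx => io D (si x) x (mem_si x) ≫ y x hx, fun x hx => ?_, fun t ht => ?_⟩
  · refine io_ext D fun z hz => ?_
    rw [← Category.assoc, io_map, io_cdesc]
    obtain rfl : z = x := hz
    rfl
  · refine io_ext D fun z hz => ?_
    rw [io_cdesc, ← ht z hz, ← Category.assoc, io_map]

end io

open Limits in
theorem essSurj : (Fun X).EssSurj where
  mem_essImage D := by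
    refine ⟨⟨cos D, sheaf_of_K (cos_K D)⟩, ⟨Discrete.natIso fun ⟨x⟩ => ?_⟩⟩
    letI : Unique (si x) := ⟨⟨⟨x, rfl⟩⟩, fun z => Subtype.ext z.2⟩
    exact coproductUniqueIso (fun z : si x => D.obj ⟨z.1⟩)

variable (X) in
theorem abelian_discrete : Nonempty (Abelian (CS X)) := by
  have := faithful (X := X)
  have := full (X := X)
  have := essSurj (X := X)
  have : (Fun X).IsEquivalence := {}
  have : Limits.HasFiniteProducts (CS X) :=
    ⟨fun n => Adjunction.hasLimitsOfShape_of_equivalence (Fun X)⟩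
  exact ⟨abelianOfEquivalence (Fun X)⟩

end discrete

/-- For a locally connected `T1` space `X`, the category of cosheaves of abelian groups on `X` is
abelian if and only if `X` is discrete. -/
theorem result (X : Type u) [TopologicalSpace X] [T1Space X] [LocallyConnectedSpace X] :
    Nonempty (Abelian (CS X)) ↔ DiscreteTopology X := by
  constructor
  · rintro ⟨inst⟩
    rw [discreteTopology_iff_isOpen_singleton]
    intro x
    by_contra hx
    rw [isOpen_singleton_iff_punctured_nhds] at hx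
    exact (not_abelian x ⟨hx⟩).false inst
  · intro h
    exact abelian_discrete X

end Pool.Agent.Results.MP_c909fd_al.AbelianIffDiscrete
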